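import Pool.Agent.Run7.h481.RG.Iface

/-! Piece CDF of project RG (MP_e3daee_pr): statement and paper proof by helper481, Lean proof by
helper712. -/

set_option autoImplicit false

namespace Run7.h712.RG

open MeasureTheory ProbabilityTheory Set Filter H481.RG
open scoped NNReal ENNReal Topology

/-- partial sums of the masses -/
noncomputable def S (u : U) (n j : ℕ) : ℝ := ∑ k ∈ Finset.range j, mass u n k

theorem mass_nonneg (u : U) (n k : ℕ) : 0 ≤ mass u n k := by
  unfold mass; split_ifs <;> positivity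

theorem mass_le (u : U) (n k : ℕ) : mass u n k ≤ (1 / 2) * (1 / 2) ^ n := by
  unfold mass; split_ifs
  · exact le_rfl
  · positivity

theorem S_mono (u : U) (n : ℕ) : Monotone (S u n) := by
  intro i j hij
  unfold S
  exact Finset.sum_le_sum_of_subset_of_nonneg (Finset.range_mono hij)
    (fun k _ _ => mass_nonneg u n k)

theorem S_succ (u : U) (n j : ℕ) : S u n (j + 1) = S u n j + mass u n j := by
  unfold S; rw [Finset.sum_range_succ]

theorem mass_pos (u : U) (n k : ℕ) (h : alive u n k) : mass u n k = (1 / 2) * (1 / 2) ^ n := by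
  unfold mass; rw [if_pos h]

theorem mass_zero (u : U) (n k : ℕ) (h : ¬ alive u n k) : mass u n k = 0 := by
  unfold mass; rw [if_neg h]

theorem mass_child (u : U) (n k : ℕ) :
    mass u (n + 1) (3 * k) + mass u (n + 1) (3 * k + 1) + mass u (n + 1) (3 * k + 2) =
      mass u n k := by
  have e0 : (3 * k) / 3 = k := by omega
  have e1 : (3 * k + 1) / 3 = k := by omega
  have e2 : (3 * k + 2) / 3 = k := by omega
  have f0 : (3 * k) % 3 = 0 := by omega
  have f1 : (3 * k + 1) % 3 = 1 := by omega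
  have f2 : (3 * k + 2) % 3 = 2 := by omega
  have a0 : alive u (n + 1) (3 * k) ↔ alive u n k ∧ 0 ≠ (u (n, k) : ℕ) := by
    simp only [alive, e0, f0]
  have a1 : alive u (n + 1) (3 * k + 1) ↔ alive u n k ∧ 1 ≠ (u (n, k) : ℕ) := by
    simp only [alive, e1, f1]
  have a2 : alive u (n + 1) (3 * k + 2) ↔ alive u n k ∧ 2 ≠ (u (n, k) : ℕ) := by
    simp only [alive, e2, f2]
  by_cases h : alive u n k
  · have hv : (u (n, k) : ℕ) = 0 ∨ (u (n, k) : ℕ) = 1 ∨ (u (n, k) : ℕ) = 2 := by
      have := (u (n, k)).isLt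
      omega
    rw [mass_pos u n k h]
    rcases hv with hv | hv | hv
    · rw [mass_zero _ _ _ (fun h' => (a0.1 h').2 hv.symm),
        mass_pos _ _ _ (a1.2 ⟨h, by omega⟩), mass_pos _ _ _ (a2.2 ⟨h, by omega⟩)]
      ring
    · rw [mass_pos _ _ _ (a0.2 ⟨h, by omega⟩),
        mass_zero _ _ _ (fun h' => (a1.1 h').2 hv.symm), mass_pos _ _ _ (a2.2 ⟨h, by omega⟩)]
      ring
    · rw [mass_pos _ _ _ (a0.2 ⟨h, by omega⟩), mass_pos _ _ _ (a1.2 ⟨h, by omega⟩),
        mass_zero _ _ _ (fun h' => (a2.1 h').2 hv.symm)]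
      ring
  · rw [mass_zero u n k h, mass_zero _ _ _ (fun h' => h (a0.1 h').1),
      mass_zero _ _ _ (fun h' => h (a1.1 h').1), mass_zero _ _ _ (fun h' => h (a2.1 h').1)]
    ring

theorem S_three (u : U) (n j : ℕ) : S u (n + 1) (3 * j) = S u n j := by
  induction j with
  | zero => simp [S]
  | succ j ih =>
    have : 3 * (j + 1) = 3 * j + 1 + 1 + 1 := by ring
    rw [this, S_succ, S_succ, S_succ, ih, S_succ, ← mass_child u n j]
    ring

theorem S_pow (u : U) (n m j : ℕ) : S u (n + m) (j * 3 ^ m) = S u n j := by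
  induction m with
  | zero => simp
  | succ m ih =>
    have : j * 3 ^ (m + 1) = 3 * (j * 3 ^ m) := by ring
    rw [this, ← add_assoc, S_three, ih]

theorem S_zero_le (u : U) (j : ℕ) : S u 0 j ≤ 1 / 2 := by
  induction j with
  | zero => simp [S]
  | succ j ih =>
    rcases Nat.eq_zero_or_pos j with h | h
    · subst h
      rw [S_succ]
      have : S u 0 0 = 0 := by simp [S]
      rw [this]
      have := mass_le u 0 0
      simpa using this
    · rw [S_succ]
      have : mass u 0 j = 0 := by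
        unfold mass
        rw [if_neg]
        simp only [alive]
        omega
      rw [this]; simpa using ih

theorem S_le (u : U) (n j : ℕ) : S u n j ≤ 1 / 2 := by
  induction n with
  | zero => exact S_zero_le u j
  | succ n ih =>
    calc S u (n + 1) j ≤ S u (n + 1) (3 * j) := S_mono u _ (by omega)
      _ = S u n j := S_three u n j
      _ ≤ 1 / 2 := ih

theorem S_full (u : U) (n : ℕ) : S u n (3 ^ n) = 1 / 2 := by
  have h := S_pow u 0 n 1
  rw [zero_add, one_mul] at h
  rw [h]
  have : S u 0 1 = mass u 0 0 := by simp [S]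
  rw [this]
  unfold mass
  simp [alive]

/-- truncation -/
noncomputable def c (t : ℝ) : ℝ := max 0 (min t 1)

theorem c_nonneg (t : ℝ) : 0 ≤ c t := le_max_left _ _

theorem c_mono : Monotone c := fun _ _ h => max_le_max le_rfl (min_le_min h le_rfl)

theorem c_of (t : ℝ) (h0 : 0 ≤ t) (h1 : t ≤ 1) : c t = t := by
  unfold c; rw [min_eq_left h1, max_eq_right h0]

theorem c_sub (s t : ℝ) (h : s ≤ t) : c t ≤ c s + (t - s) := by
  unfold c
  rcases le_total t 1 with h1 | h1 <;> rcases le_total s 1 with h2 | h2 <;>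
    rcases le_total 0 t with h3 | h3 <;> rcases le_total 0 s with h4 | h4 <;>
    simp [h1, h2, h3, h4] <;> linarith

/-- the approximations -/
noncomputable def ap (u : U) (x : ℝ) (n : ℕ) : ℝ := S u n ⌊x * 3 ^ n⌋₊

theorem ap_mono (u : U) (x : ℝ) (hx : 0 ≤ x) : Monotone (ap u x) := by
  apply monotone_nat_of_le_succ
  intro n
  unfold ap
  rw [← S_three u n]
  apply S_mono
  apply Nat.le_floor
  push_cast
  have := Nat.floor_le (show 0 ≤ x * 3 ^ n by positivity)
  calc (3 : ℝ) * (⌊x * 3 ^ n⌋₊ : ℝ) ≤ 3 * (x * 3 ^ n) := by linarith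
    _ = x * 3 ^ (n + 1) := by ring

theorem ap_le (u : U) (x : ℝ) (n : ℕ) : ap u x n ≤ 1 / 2 := S_le u n _

theorem ap_bdd (u : U) (x : ℝ) : BddAbove (Set.range (ap u x)) := by
  refine ⟨1 / 2, ?_⟩
  rintro _ ⟨n, rfl⟩
  exact ap_le u x n

/-- the distribution function -/
noncomputable def F (u : U) (t : ℝ) : ℝ := ⨆ n, ap u (c t) n

theorem le_F (u : U) (t : ℝ) (n : ℕ) : ap u (c t) n ≤ F u t := le_ciSup (ap_bdd u (c t)) n

theorem F_le (u : U) (t : ℝ) (n : ℕ) : F u t ≤ S u n (⌊c t * 3 ^ n⌋₊ + 1) := by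
  apply ciSup_le
  intro m
  calc ap u (c t) m ≤ ap u (c t) (n + m) := ap_mono u _ (c_nonneg t) (Nat.le_add_left m n)
    _ ≤ S u (n + m) ((⌊c t * 3 ^ n⌋₊ + 1) * 3 ^ m) := by
        unfold ap
        apply S_mono
        apply Nat.floor_le_of_le
        push_cast
        have := (Nat.lt_floor_add_one (c t * 3 ^ n)).le
        rw [pow_add, ← mul_assoc]
        exact mul_le_mul_of_nonneg_right this (by positivity)
    _ = _ := S_pow u n m _

theorem F_grid (u : U) (n j : ℕ) (hj : j ≤ 3 ^ n) : F u ((j : ℝ) / 3 ^ n) = S u n j := by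
  have hc : c ((j : ℝ) / 3 ^ n) = (j : ℝ) / 3 ^ n := by
    apply c_of
    · positivity
    · rw [div_le_one (by positivity)]
      exact_mod_cast hj
  have hfl : ∀ m : ℕ, ⌊(j : ℝ) / 3 ^ n * 3 ^ (n + m)⌋₊ = j * 3 ^ m := by
    intro m
    have : (j : ℝ) / 3 ^ n * 3 ^ (n + m) = ((j * 3 ^ m : ℕ) : ℝ) := by
      push_cast
      rw [pow_add]
      field_simp
    rw [this, Nat.floor_natCast]
  have hap : ∀ m, ap u ((j : ℝ) / 3 ^ n) (n + m) = S u n j := by
    intro m
    unfold ap
    rw [hfl m, S_pow]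
  apply le_antisymm
  · unfold F
    rw [hc]
    apply ciSup_le
    intro m
    rw [← hap m]
    exact ap_mono u _ (by positivity) (Nat.le_add_left m n)
  · have := le_F u ((j : ℝ) / 3 ^ n) n
    rw [hc] at this
    have h0 := hap 0
    rw [add_zero] at h0
    rwa [h0] at this

theorem F_mono (u : U) : Monotone (F u) := by
  intro s t hst
  unfold F
  apply ciSup_mono (ap_bdd u _)
  intro n
  unfold ap
  apply S_mono
  apply Nat.floor_mono
  exact mul_le_mul_of_nonneg_right (c_mono hst) (by positivity)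

theorem F_mod (u : U) (n : ℕ) (s t : ℝ) (hst : s ≤ t) (h : t - s ≤ 1 / 3 ^ n) :
    F u t - F u s ≤ (1 / 2) ^ n := by
  have h1 : ⌊c t * 3 ^ n⌋₊ ≤ ⌊c s * 3 ^ n⌋₊ + 1 := by
    have h2 := c_sub s t hst
    have h4 : c t * 3 ^ n ≤ c s * 3 ^ n + 1 := by
      have h5 : c t ≤ c s + 1 / 3 ^ n := by linarith
      calc c t * 3 ^ n ≤ (c s + 1 / 3 ^ n) * 3 ^ n := by
            exact mul_le_mul_of_nonneg_right h5 (by positivity)
        _ = c s * 3 ^ n + 1 := by field_simp
    rw [← Nat.floor_add_one (mul_nonneg (c_nonneg s) (by positivity))]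
    exact Nat.floor_mono h4
  have h2 := F_le u t n
  have h3 := le_F u s n
  have h4 : S u n (⌊c t * 3 ^ n⌋₊ + 1) ≤ S u n (⌊c s * 3 ^ n⌋₊ + 1 + 1) :=
    S_mono u n (by omega)
  rw [S_succ u n (⌊c s * 3 ^ n⌋₊ + 1), S_succ u n ⌊c s * 3 ^ n⌋₊] at h4
  have h5 := mass_le u n ⌊c s * 3 ^ n⌋₊
  have h6 := mass_le u n (⌊c s * 3 ^ n⌋₊ + 1)
  have h7 : ap u (c s) n = S u n ⌊c s * 3 ^ n⌋₊ := rfl
  linarith

theorem F_cont (u : U) : Continuous (F u) := by
  rw [Metric.continuous_iff]
  intro t ε hε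
  obtain ⟨n, hn⟩ := exists_pow_lt_of_lt_one hε (show (1 / 2 : ℝ) < 1 by norm_num)
  refine ⟨1 / 3 ^ n, by positivity, ?_⟩
  intro s hs
  rw [Real.dist_eq] at hs ⊢
  rcases le_total s t with h | h
  · have h1 := F_mod u n s t h (by rw [abs_sub_comm, abs_of_nonneg (by linarith)] at hs; exact hs.le)
    have h2 := F_mono u h
    rw [abs_sub_comm, abs_of_nonneg (by linarith)]
    linarith
  · have h1 := F_mod u n t s h (by rw [abs_of_nonneg (by linarith)] at hs; exact hs.le)
    have h2 := F_mono u h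
    rw [abs_of_nonneg (by linarith)]
    linarith

theorem alive_meas (n k : ℕ) : MeasurableSet {u : U | alive u n k} := by
  induction n generalizing k with
  | zero => simp [alive]
  | succ n ih =>
    have : {u : U | alive u (n + 1) k} =
        {u : U | alive u n (k / 3)} ∩ (fun u : U => u (n, k / 3)) ⁻¹' {v | k % 3 ≠ (v : ℕ)} := by
      ext u; simp [alive]
    rw [this]
    exact (ih _).inter ((measurable_pi_apply _) (MeasurableSet.of_discrete))

theorem mass_meas (n k : ℕ) : Measurable fun u : U => mass u n k := by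
  classical
  unfold mass
  exact Measurable.ite (alive_meas n k) measurable_const measurable_const

theorem S_meas (n j : ℕ) : Measurable fun u : U => S u n j := by
  unfold S
  exact Finset.measurable_sum _ (fun k _ => mass_meas n k)

theorem t_CDF : S_CDF := by
  refine ⟨F, ⟨F_cont, F_mono, ?_, ?_, ?_, ?_⟩⟩
  · intro u t ht
    have hc : c t = 0 := by unfold c; rw [min_eq_left (by linarith), max_eq_left ht]
    unfold F
    rw [hc]
    have : ∀ n, ap u 0 n = 0 := by intro n; simp [ap, S]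
    simp [this]
  · intro u t ht
    have hc : c t = 1 := by unfold c; rw [min_eq_right ht]; norm_num
    unfold F
    rw [hc]
    have : ∀ n, ap u 1 n = 1 / 2 := by
      intro n
      unfold ap
      have : (1 : ℝ) * 3 ^ n = ((3 ^ n : ℕ) : ℝ) := by push_cast; ring
      rw [this, Nat.floor_natCast, S_full]
    simp [this]
  · intro t
    unfold F
    apply Measurable.iSup
    intro n
    exact S_meas n _
  · intro u n k hk
    have h1 := F_grid u n (k + 1) hk
    have h2 := F_grid u n k hk.le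
    push_cast at h1
    rw [h1, h2, S_succ]
    ring

end Run7.h712.RG
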